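import Pool.Agent.Helper78.BigMap.Goals

set_option autoImplicit false

open Topology Filter Set Metric unitInterval

namespace Pool.Agent.Helper70.BigD6
open Pool.Agent.Helper78.BigMap

/-- The class of a loop. -/
abbrev cls {X : Type*} [TopologicalSpace X] {x : X} (γ : Path x x) : FundamentalGroup X x :=
  FundamentalGroup.fromPath (Path.Homotopic.Quotient.mk γ)

theorem cls_eq {X : Type*} [TopologicalSpace X] {x : X} {γ γ' : Path x x}
    (h : γ.Homotopic γ') : cls γ = cls γ' :=
  Path.Homotopic.Quotient.eq.2 h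

theorem cls_trans {X : Type*} [TopologicalSpace X] {x : X} (γ γ' : Path x x) :
    cls (γ.trans γ') = cls γ' * cls γ := rfl

theorem aux_refl {X : Type*} [TopologicalSpace X] {x x' y : X} (h : x' = x) (β : Path x y) :
    (((Path.refl x).cast h rfl).trans β).Homotopic (β.cast h rfl) := by
  subst h
  exact ⟨Path.Homotopy.reflTrans _⟩

theorem aux_step {X : Type*} [TopologicalSpace X] {x x' y z w : X} (h : x' = x) (p : Path x y)
    (q : Path y z) (r : Path x z) (hr : (p.trans q).Homotopic r) (β : Path z w) :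
    ((r.cast h rfl).trans β).Homotopic ((p.cast h rfl).trans (q.trans β)) := by
  subst h
  have h1 : (r.trans β).Homotopic ((p.trans q).trans β) := hr.symm.hcomp (Path.Homotopic.refl β)
  exact h1.trans ⟨Path.Homotopy.transAssoc _ _ _⟩

theorem aux_end {X : Type*} [TopologicalSpace X] {x x' y y' : X} (h1 : x' = x) (h2 : y' = y)
    (γ : Path x y) :
    (((γ.cast h1 h2).cast h1.symm rfl).trans ((Path.refl y).cast h2 rfl)).Homotopic γ := by
  subst h1 h2
  exact ⟨Path.Homotopy.transRefl _⟩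

theorem cover_gen {X : Type*} [TopologicalSpace X] {x₀ : X} (U : Bool → Set X)
    (hU : ∀ i, IsOpen (U i)) (hcov : ∀ x, ∃ i, x ∈ U i)
    (hconn : ∀ x, (∀ i, x ∈ U i) → ∃ δ : Path x x₀, ∀ t i, δ t ∈ U i)
    (hx : ∀ i, x₀ ∈ U i)
    (H : Subgroup (FundamentalGroup X x₀))
    (hH : ∀ i (β : Path x₀ x₀), (∀ t, β t ∈ U i) → cls β ∈ H) : H = ⊤ := by
  rw [eq_top_iff]
  intro g _
  obtain ⟨γ, hγ⟩ := Path.Homotopic.Quotient.mk_surjective g
  have hg : g = cls γ := hγ.symm
  rw [hg]
  clear hg hγ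
  obtain ⟨t, h0, hmono, ⟨N, hN⟩, ht⟩ :=
    exists_monotone_Icc_subset_open_cover_unitInterval (c := fun i => γ ⁻¹' U i)
      (fun i => (hU i).preimage γ.continuous) (by
        intro s _
        obtain ⟨i, hi⟩ := hcov (γ s)
        exact mem_iUnion.2 ⟨i, hi⟩)
  have hP0 : ∀ i, ∀ β : Path (γ 0) x₀, (∀ s, β s ∈ U i) →
      cls (((γ.subpath 0 0).cast γ.source.symm rfl).trans β) ∈ H := by
    intro i β hβ
    have h1 := aux_refl γ.source.symm β
    rw [Path.subpath_self]
    rw [cls_eq h1]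
    exact hH i _ (fun s => hβ s)
  have hPs : ∀ τ τ' : I, τ ≤ τ' → (∃ i, Icc τ τ' ⊆ γ ⁻¹' U i) →
      (∀ i, ∀ β : Path (γ τ) x₀, (∀ s, β s ∈ U i) →
        cls (((γ.subpath 0 τ).cast γ.source.symm rfl).trans β) ∈ H) →
      (∀ i, ∀ β : Path (γ τ') x₀, (∀ s, β s ∈ U i) →
        cls (((γ.subpath 0 τ').cast γ.source.symm rfl).trans β) ∈ H) := by
    rintro τ τ' hle ⟨j, hj⟩ IH
    have case1 : ∀ β : Path (γ τ') x₀, (∀ s, β s ∈ U j) →
        cls (((γ.subpath 0 τ').cast γ.source.symm rfl).trans β) ∈ H := by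
      intro β hβ
      have h1 := aux_step γ.source.symm (γ.subpath 0 τ) (γ.subpath τ τ') (γ.subpath 0 τ')
        ⟨Path.Homotopy.subpathTransSubpath γ 0 τ τ'⟩ β
      rw [cls_eq h1]
      refine IH j _ ?_
      intro s
      have hs : ((γ.subpath τ τ').trans β) s ∈ range ((γ.subpath τ τ').trans β) := ⟨s, rfl⟩
      rw [Path.trans_range] at hs
      rcases hs with hs | hs
      · rw [Path.range_subpath_of_le γ τ τ' hle] at hs
        obtain ⟨r, hr, hr2⟩ := hs
        rw [← hr2]
        exact hj hr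
      · obtain ⟨r, hr⟩ := hs
        rw [← hr]
        exact hβ r
    intro i β hβ
    by_cases hij : i = j
    · subst hij
      exact case1 β hβ
    · have hall : ∀ k, γ τ' ∈ U k := by
        have h1 : γ τ' ∈ U i := by
          have := hβ 0
          rwa [β.source] at this
        have h2 : γ τ' ∈ U j := hj ⟨hle, le_rfl⟩
        intro k
        by_cases hk : k = i
        · rw [hk]; exact h1
        · have : k = j := by
            revert hk hij
            cases i <;> cases j <;> cases k <;> simp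
          rw [this]; exact h2
      obtain ⟨δ, hδ⟩ := hconn _ hall
      have h1 := case1 δ (fun s => hδ s j)
      have h2 : cls (δ.symm.trans β) ∈ H := by
        refine hH i _ ?_
        intro s
        have hs : (δ.symm.trans β) s ∈ range (δ.symm.trans β) := ⟨s, rfl⟩
        rw [Path.trans_range] at hs
        rcases hs with hs | hs
        · obtain ⟨r, hr⟩ := hs
          rw [← hr]
          exact hδ _ i
        · obtain ⟨r, hr⟩ := hs
          rw [← hr]
          exact hβ r
      have h3 : (((γ.subpath 0 τ').cast γ.source.symm rfl).trans β).Homotopic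
          ((((γ.subpath 0 τ').cast γ.source.symm rfl).trans δ).trans (δ.symm.trans β)) := by
        have e1 : (δ.trans (δ.symm.trans β)).Homotopic β := by
          have a1 : ((δ.trans δ.symm).trans β).Homotopic (δ.trans (δ.symm.trans β)) :=
            ⟨Path.Homotopy.transAssoc _ _ _⟩
          have a2 : ((δ.trans δ.symm).trans β).Homotopic ((Path.refl _).trans β) :=
            Path.Homotopic.hcomp ⟨(Path.Homotopy.reflTransSymm δ).symm⟩ (Path.Homotopic.refl β)
          exact (a1.symm.trans a2).trans ⟨Path.Homotopy.reflTrans _⟩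
        have e2 := (Path.Homotopic.refl ((γ.subpath 0 τ').cast γ.source.symm rfl)).hcomp e1
        exact e2.symm.trans (Path.Homotopic.symm ⟨Path.Homotopy.transAssoc _ _ _⟩)
      rw [cls_eq h3, cls_trans]
      exact H.mul_mem h2 h1
  have hPn : ∀ n, ∀ i, ∀ β : Path (γ (t n)) x₀, (∀ s, β s ∈ U i) →
      cls (((γ.subpath 0 (t n)).cast γ.source.symm rfl).trans β) ∈ H := by
    intro n
    induction n with
    | zero => rw [h0]; exact hP0
    | succ n ih => exact hPs _ _ (hmono n.le_succ) (ht n) ih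
  have h1 := hPn N
  rw [hN N le_rfl] at h1
  have h2 := h1 false ((Path.refl x₀).cast γ.target rfl) (fun s => hx false)
  rw [Path.subpath_zero_one] at h2
  rw [cls_eq (aux_end γ.source γ.target γ)] at h2
  exact h2


section
variable {a b c : ℝ} (h : a < c ∧ c < b) (p q : ℝ)

theorem homotopic_of_lift (hpq : ∀ z : ℂ, (z ≠ p ∧ z ≠ q) → (z ≠ a ∧ z ≠ b))
    (γ₁ γ₂ : Path (bp h) (bp h)) (w₁ w₂ : I → ℂ) (hw₁ : Continuous w₁) (hw₂ : Continuous w₂)
    (h₁ : ∀ t, ((γ₁ t : X a b) : ℂ) = p + Complex.exp (w₁ t))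
    (h₂ : ∀ t, ((γ₂ t : X a b) : ℂ) = p + Complex.exp (w₂ t))
    (h0 : w₁ 0 = w₂ 0) (h1 : w₁ 1 = w₂ 1)
    (hq : ∀ s t : I, (p : ℂ) + Complex.exp (((1 - (s : ℝ) : ℝ) : ℂ) * w₁ t +
      ((s : ℝ) : ℂ) * w₂ t) ≠ q) :
    γ₁.Homotopic γ₂ := by
  refine ⟨⟨⟨⟨fun x => ⟨(p : ℂ) + Complex.exp (((1 - (x.1 : ℝ) : ℝ) : ℂ) * w₁ x.2 +
      ((x.1 : ℝ) : ℂ) * w₂ x.2), ?_⟩, ?_⟩, ?_, ?_⟩, ?_⟩⟩
  · apply hpq
    refine ⟨?_, hq x.1 x.2⟩
    intro h3
    rw [add_eq_left] at h3
    exact Complex.exp_ne_zero _ h3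
  · refine Continuous.subtype_mk ?_ _
    fun_prop
  · intro t
    apply Subtype.ext
    simp [h₁]
  · intro t
    apply Subtype.ext
    simp [h₂]
  · rintro s t (ht | ht)
    · subst ht
      apply Subtype.ext
      have e : (((1 - (s : ℝ) : ℝ) : ℂ) * w₁ 0 + ((s : ℝ) : ℂ) * w₂ 0) = w₁ 0 := by
        rw [← h0]; push_cast; ring
      show (p : ℂ) + Complex.exp (((1 - (s : ℝ) : ℝ) : ℂ) * w₁ 0 + ((s : ℝ) : ℂ) * w₂ 0) =
        ((γ₁ 0 : X a b) : ℂ)
      rw [e, h₁]
    · rw [mem_singleton_iff] at ht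
      subst ht
      apply Subtype.ext
      have e : (((1 - (s : ℝ) : ℝ) : ℂ) * w₁ 1 + ((s : ℝ) : ℂ) * w₂ 1) = w₁ 1 := by
        rw [← h1]; push_cast; ring
      show (p : ℂ) + Complex.exp (((1 - (s : ℝ) : ℝ) : ℂ) * w₁ 1 + ((s : ℝ) : ℂ) * w₂ 1) =
        ((γ₁ 1 : X a b) : ℂ)
      rw [e, h₁]

/-- The path `p + exp w`. -/
noncomputable def mkPath (hpq : ∀ z : ℂ, (z ≠ p ∧ z ≠ q) → (z ≠ a ∧ z ≠ b))
    (w : I → ℂ) (hw : Continuous w) (hq : ∀ t, (p : ℂ) + Complex.exp (w t) ≠ q)
    (h0 : (p : ℂ) + Complex.exp (w 0) = c) (h1 : (p : ℂ) + Complex.exp (w 1) = c) :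
    Path (bp h) (bp h) where
  toFun t := ⟨(p : ℂ) + Complex.exp (w t), hpq _ ⟨by
    intro h3
    rw [add_eq_left] at h3
    exact Complex.exp_ne_zero _ h3, hq t⟩⟩
  continuous_toFun := by
    refine Continuous.subtype_mk ?_ _
    fun_prop
  source' := Subtype.ext h0
  target' := Subtype.ext h1

/-- If the real part of the exponent is small, the value is not `q`. -/
theorem ne_of_small (hcp : c ≠ p) (hc : |c - p| < |q - p|) (w : ℂ)
    (hw : w.re ≤ Real.log |c - p|) : (p : ℂ) + Complex.exp w ≠ q := by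
  intro h3
  have h4 : Complex.exp w = ((q - p : ℝ) : ℂ) := by
    push_cast
    rw [← h3]; ring
  have h5 : Real.exp w.re = |q - p| := by
    rw [← Complex.norm_exp, h4, Complex.norm_real, Real.norm_eq_abs]
  have h6 : Real.exp w.re ≤ |c - p| := by
    calc Real.exp w.re ≤ Real.exp (Real.log |c - p|) := Real.exp_le_exp.2 hw
      _ = |c - p| := Real.exp_log (abs_pos.2 (sub_ne_zero.2 hcp))
  linarith

theorem cyc (hpq : ∀ z : ℂ, (z ≠ p ∧ z ≠ q) → (z ≠ a ∧ z ≠ b)) (hcp : c ≠ p)
    (hc : |c - p| < |q - p|) (κ : ℝ) (hκ0 : 0 < κ) (hκ : κ < (q - p) ^ 2) 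
    (hz : ∀ z : X a b, (z : ℂ) ≠ p) :
    ∃ x : Pi1 h, ∀ β : Path (bp h) (bp h),
      (∀ t, (((β t : X a b) : ℂ).re - p) * (q - p) < κ) → cls β ∈ Subgroup.zpowers x := by
  set w0 : ℂ := Complex.log ((c - p : ℝ) : ℂ) with hw0
  have hcpC : ((c - p : ℝ) : ℂ) ≠ 0 := by exact_mod_cast sub_ne_zero.2 hcp
  have hexp0 : Complex.exp w0 = ((c - p : ℝ) : ℂ) := Complex.exp_log hcpC
  have hre0 : w0.re = Real.log |c - p| := by
    rw [hw0, Complex.log_re, Complex.norm_real, Real.norm_eq_abs]
  have hpc : (p : ℂ) + Complex.exp w0 = c := by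
    rw [hexp0]; push_cast; ring
  have hper : ∀ n : ℤ, Complex.exp (w0 + 2 * Real.pi * Complex.I * n) = Complex.exp w0 := by
    intro n
    rw [Complex.exp_add]
    have : (2 * Real.pi * Complex.I * n : ℂ) = n * (2 * Real.pi * Complex.I) := by ring
    rw [this, Complex.exp_int_mul_two_pi_mul_I, mul_one]
  have hreI : ∀ r : ℝ, (w0 + 2 * Real.pi * Complex.I * (r : ℂ)).re = w0.re := by
    intro r
    simp
  let E : ℤ → Path (bp h) (bp h) := fun n =>
    mkPath h p q hpq (fun t => w0 + 2 * Real.pi * Complex.I * (((n : ℝ) * (t : ℝ) : ℝ) : ℂ))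
      (by fun_prop)
      (fun t => ne_of_small p q hcp hc _ (by rw [hreI, hre0]))
      (by simp [hpc])
      (by
        have : (w0 + 2 * Real.pi * Complex.I * (((n : ℝ) * ((1 : I) : ℝ) : ℝ) : ℂ)) =
          w0 + 2 * Real.pi * Complex.I * n := by simp
        rw [this, hper, hpc])
  have hE : ∀ n t, ((E n t : X a b) : ℂ) = p + Complex.exp (w0 + 2 * Real.pi * Complex.I *
      (((n : ℝ) * (t : ℝ) : ℝ) : ℂ)) := fun n t => rfl
  have hsmall : ∀ (w₁ w₂ : ℂ), w₁.re ≤ Real.log |c - p| → w₂.re ≤ Real.log |c - p| → ∀ s : I,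
      (p : ℂ) + Complex.exp (((1 - (s : ℝ) : ℝ) : ℂ) * w₁ + ((s : ℝ) : ℂ) * w₂) ≠ q := by
    intro w₁ w₂ h₁ h₂ s
    apply ne_of_small p q hcp hc
    rw [Complex.add_re, Complex.re_ofReal_mul, Complex.re_ofReal_mul]
    have e1 := mul_le_mul_of_nonneg_left h₁ (sub_nonneg.2 s.2.2)
    have e2 := mul_le_mul_of_nonneg_left h₂ s.2.1
    linarith
  have hadd : ∀ n : ℤ, (E (n + 1)).Homotopic ((E n).trans (E 1)) := by
    intro n
    refine homotopic_of_lift h p q hpq _ _
      (fun t => w0 + 2 * Real.pi * Complex.I * ((((n + 1 : ℤ) : ℝ) * (t : ℝ) : ℝ) : ℂ))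
      (fun t => w0 + 2 * Real.pi * Complex.I * (((if (t : ℝ) ≤ 1 / 2 then (n : ℝ) * (2 * t) else
        n + (2 * t - 1) : ℝ)) : ℂ)) (by fun_prop) ?_ (fun t => rfl) ?_ ?_ ?_ ?_
    · have : Continuous fun t : I => (if (t : ℝ) ≤ 1 / 2 then (n : ℝ) * (2 * t) else
          n + (2 * t - 1) : ℝ) := by
        refine Continuous.if_le (by fun_prop) (by fun_prop) (by fun_prop) (by fun_prop) ?_
        intro t ht
        rw [ht]; ring
      fun_prop
    · intro t
      rw [Path.trans_apply]
      split_ifs with h3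
      · rw [hE]
      · rw [hE]
        push_cast
        have : w0 + 2 * Real.pi * Complex.I * (n + (2 * ((t : ℝ) : ℂ) - 1)) =
          (w0 + 2 * Real.pi * Complex.I * (1 * (2 * ((t : ℝ) : ℂ) - 1))) +
            n * (2 * Real.pi * Complex.I) := by ring
        rw [this, Complex.exp_add _ (n * (2 * Real.pi * Complex.I)),
          Complex.exp_int_mul_two_pi_mul_I, mul_one]
    · simp
    · norm_num
    · intro s t
      apply hsmall
      · rw [hreI, hre0]
      · rw [hreI, hre0]
  have hclsE : ∀ n : ℤ, cls (E n) ∈ Subgroup.zpowers (cls (E 1)) := by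
    have hx : cls (E 1) ∈ Subgroup.zpowers (cls (E 1)) := Subgroup.mem_zpowers _
    intro n
    induction n using Int.induction_on with
    | zero =>
      have : E 0 = Path.refl _ := by
        ext t
        have e2 : (((Path.refl (bp h)) t : X a b) : ℂ) = c := rfl
        rw [hE, e2]
        simp [hpc]
      rw [this]
      exact one_mem _
    | succ n ih =>
      rw [cls_eq (hadd n), cls_trans]
      exact mul_mem hx ih
    | pred n ih =>
      have e := cls_eq (hadd (-n - 1))
      rw [cls_trans, sub_add_cancel] at e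
      rw [e] at ih
      exact (Subgroup.mul_mem_cancel_left _ hx).1 ih
  refine ⟨cls (E 1), ?_⟩
  intro β hβ
  -- the lift
  obtain ⟨w, hwc, hw, hw00⟩ : ∃ w : I → ℂ, Continuous w ∧
      (∀ t, ((β t : X a b) : ℂ) = p + Complex.exp (w t)) ∧ w 0 = w0 := by
    let g : C(I, {z : ℂ // z ≠ 0}) := ⟨fun t => ⟨((β t : X a b) : ℂ) - p, sub_ne_zero.2 (hz _)⟩,
      by
        refine Continuous.subtype_mk ?_ _
        fun_prop⟩
    have g0 : g 0 = ⟨_, w0.exp_ne_zero⟩ := by
      apply Subtype.ext
      show ((β 0 : X a b) : ℂ) - p = Complex.exp w0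
      rw [β.source, hexp0]
      simp [bp]
    refine ⟨Complex.isCoveringMap_exp.liftPath g w0 g0, ContinuousMap.continuous _, ?_, ?_⟩
    · intro t
      have e := congrFun (Complex.isCoveringMap_exp.liftPath_lifts g w0 g0) t
      have e2 := congrArg Subtype.val e
      have e3 : Complex.exp (Complex.isCoveringMap_exp.liftPath g w0 g0 t) =
        ((β t : X a b) : ℂ) - p := e2
      rw [e3]; ring
    · exact Complex.isCoveringMap_exp.liftPath_zero g w0 g0
  obtain ⟨n, hn⟩ : ∃ n : ℤ, w 1 = w0 + n * (2 * Real.pi * Complex.I) := by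
    have e := hw 1
    rw [β.target] at e
    have e2 : Complex.exp (w 1) = Complex.exp w0 := by
      rw [hexp0]
      have : ((bp h : X a b) : ℂ) = c := rfl
      rw [this] at e
      push_cast
      rw [e]; ring
    exact Complex.exp_eq_exp_iff_exists_int.1 e2
  let w' : I → ℂ := fun t => ((min (w t).re (Real.log |c - p|) : ℝ) : ℂ) +
    (((w t).im : ℝ) : ℂ) * Complex.I
  have hw'c : Continuous w' := by
    have : Continuous fun t => min (w t).re (Real.log |c - p|) :=
      (Complex.continuous_re.comp hwc).min continuous_const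
    have h2 : Continuous fun t => (w t).im := Complex.continuous_im.comp hwc
    fun_prop
  have hw're : ∀ t, (w' t).re = min (w t).re (Real.log |c - p|) := by
    intro t; simp [w']
  have hw'im : ∀ t, (w' t).im = (w t).im := by
    intro t; simp [w']
  have hw'0 : w' 0 = w 0 := by
    apply Complex.ext
    · rw [hw're, hw00, hre0, min_self]
    · rw [hw'im]
  have hw'1 : w' 1 = w 1 := by
    apply Complex.ext
    · rw [hw're, hn]
      simp [hre0]
    · rw [hw'im]
  have hw'small : ∀ t, (w' t).re ≤ Real.log |c - p| := by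
    intro t; rw [hw're]; exact min_le_right _ _
  let β' : Path (bp h) (bp h) := mkPath h p q hpq w' hw'c
    (fun t => ne_of_small p q hcp hc _ (hw'small t))
    (by rw [hw'0, hw00, hpc])
    (by
      rw [hw'1, ← hw, β.target]; rfl)
  have hβ' : ∀ t, ((β' t : X a b) : ℂ) = p + Complex.exp (w' t) := fun t => rfl
  have H1 : β.Homotopic β' := by
    refine homotopic_of_lift h p q hpq _ _ w w' hwc hw'c hw hβ' hw'0.symm hw'1.symm ?_
    intro s t h3
    set ω : ℂ := ((1 - (s : ℝ) : ℝ) : ℂ) * w t + ((s : ℝ) : ℂ) * w' t with hω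
    have him : ω.im = (w t).im := by
      rw [hω, Complex.add_im, Complex.im_ofReal_mul, Complex.im_ofReal_mul, hw'im]; ring
    have hre : ω.re ≤ (w t).re := by
      rw [hω, Complex.add_re, Complex.re_ofReal_mul, Complex.re_ofReal_mul, hw're]
      have e1 := mul_le_mul_of_nonneg_left (min_le_left (w t).re (Real.log |c - p|)) s.2.1
      linarith
    have e1 := congrArg Complex.re h3
    rw [Complex.add_re, Complex.exp_re, Complex.ofReal_re, Complex.ofReal_re, him] at e1
    have e2 := hβ t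
    rw [hw t, Complex.add_re, Complex.exp_re, Complex.ofReal_re] at e2
    have e3 : Real.exp ω.re * Real.cos (w t).im = q - p := by linarith
    have e4 : Real.exp (w t).re * Real.cos (w t).im * (q - p) < κ := by
      have : (p + Real.exp (w t).re * Real.cos (w t).im - p) * (q - p) =
        Real.exp (w t).re * Real.cos (w t).im * (q - p) := by ring
      linarith
    have e5 : 0 ≤ Real.cos (w t).im * (q - p) := by
      have : Real.exp ω.re * (Real.cos (w t).im * (q - p)) = (q - p) ^ 2 := by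
        rw [← mul_assoc, e3]; ring
      by_contra hneg
      push Not at hneg
      have h7 := mul_neg_of_pos_of_neg (Real.exp_pos ω.re) hneg
      rw [this] at h7
      exact absurd h7 (not_lt.2 (sq_nonneg _))
    have e6 := mul_le_mul_of_nonneg_right (Real.exp_le_exp.2 hre) e5
    have e7 : Real.exp ω.re * (Real.cos (w t).im * (q - p)) = (q - p) ^ 2 := by
      rw [← mul_assoc, e3]; ring
    have e8 : Real.exp (w t).re * (Real.cos (w t).im * (q - p)) < κ := by
      rw [← mul_assoc]; exact e4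
    linarith
  have H2 : β'.Homotopic (E n) := by
    refine homotopic_of_lift h p q hpq _ _ w'
      (fun t => w0 + 2 * Real.pi * Complex.I * (((n : ℝ) * (t : ℝ) : ℝ) : ℂ)) hw'c (by fun_prop)
      hβ' (hE n) ?_ ?_ ?_
    · rw [hw'0, hw00]; simp
    · rw [hw'1, hn]; simp; ring
    · intro s t
      apply hsmall
      · exact hw'small t
      · rw [hreI, hre0]
  rw [cls_eq (H1.trans H2)]
  exact hclsE n

end

theorem goalD6 : GoalD6 := by
  intro a b c h
  have hab : a < b := h.1.trans h.2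
  obtain ⟨x, hx⟩ := cyc h a b (fun z hz => hz) h.1.ne'
    (by rw [abs_of_pos (sub_pos.2 h.1), abs_of_pos (sub_pos.2 hab)]; linarith [h.2])
    (((c + b) / 2 - a) * (b - a)) (mul_pos (by linarith) (by linarith))
    (by rw [sq]; exact mul_lt_mul_of_pos_right (by linarith) (by linarith))
    (fun z => z.2.1)
  obtain ⟨y, hy⟩ := cyc h b a (fun z hz => ⟨hz.2, hz.1⟩) h.2.ne
    (by rw [abs_of_neg (sub_neg.2 h.2), abs_of_neg (sub_neg.2 hab)]; linarith [h.1])
    ((b - (a + c) / 2) * (b - a)) (mul_pos (by linarith) (by linarith))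
    (by
      have : (a - b) ^ 2 = (b - a) * (b - a) := by ring
      rw [this]; exact mul_lt_mul_of_pos_right (by linarith) (by linarith))
    (fun z => z.2.2)
  refine ⟨x, y, ?_⟩
  have hxH : Subgroup.zpowers x ≤ Subgroup.closure {x, y} :=
    (Subgroup.zpowers_le).2 (Subgroup.subset_closure (by simp))
  have hyH : Subgroup.zpowers y ≤ Subgroup.closure {x, y} :=
    (Subgroup.zpowers_le).2 (Subgroup.subset_closure (by simp))
  let U : Bool → Set (X a b) := fun i =>
    if i then {z | (z : ℂ).re < (c + b) / 2} else {z | (a + c) / 2 < (z : ℂ).re}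
  have hre : Continuous fun z : X a b => (z : ℂ).re :=
    Complex.continuous_re.comp continuous_subtype_val
  refine cover_gen U ?_ ?_ ?_ ?_ _ ?_
  · intro i
    cases i
    · exact isOpen_lt continuous_const hre
    · exact isOpen_lt hre continuous_const
  · intro z
    by_cases hz : (z : ℂ).re < (c + b) / 2
    · exact ⟨true, hz⟩
    · refine ⟨false, ?_⟩
      show (a + c) / 2 < (z : ℂ).re
      push Not at hz
      linarith
  · intro z hz
    have hz1 : (z : ℂ).re < (c + b) / 2 := hz true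
    have hz2 : (a + c) / 2 < (z : ℂ).re := hz false
    have hval : ∀ t : I, (a + c) / 2 < (((1 - (t : ℝ) : ℝ) : ℂ) * z + ((t : ℝ) : ℂ) * c).re ∧
        (((1 - (t : ℝ) : ℝ) : ℂ) * z + ((t : ℝ) : ℂ) * c).re < (c + b) / 2 := by
      intro t
      rw [Complex.add_re, Complex.re_ofReal_mul, Complex.re_ofReal_mul, Complex.ofReal_re]
      have h0 := t.2.1
      have h1 := t.2.2
      have hc1 : (a + c) / 2 < c := by linarith [h.1]
      have hc2 : c < (c + b) / 2 := by linarith [h.2]
      constructor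
      · rcases h0.eq_or_lt with h0 | h0
        · rw [← h0]; linarith
        · nlinarith [mul_pos h0 (sub_pos.2 hc1), mul_nonneg (sub_nonneg.2 h1) (sub_pos.2 hz2).le]
      · rcases h0.eq_or_lt with h0 | h0
        · rw [← h0]; linarith
        · nlinarith [mul_pos h0 (sub_pos.2 hc2), mul_nonneg (sub_nonneg.2 h1) (sub_pos.2 hz1).le]
    refine ⟨⟨⟨fun t => ⟨((1 - (t : ℝ) : ℝ) : ℂ) * z + ((t : ℝ) : ℂ) * c, ?_, ?_⟩, ?_⟩, ?_, ?_⟩, ?_⟩
    · intro e
      have := (hval t).1
      rw [e, Complex.ofReal_re] at this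
      linarith [h.1]
    · intro e
      have := (hval t).2
      rw [e, Complex.ofReal_re] at this
      linarith [h.2]
    · refine Continuous.subtype_mk ?_ _
      fun_prop
    · apply Subtype.ext
      simp
    · apply Subtype.ext
      simp [bp]
    · intro t i
      cases i
      · exact (hval t).1
      · exact (hval t).2
  · intro i
    cases i
    · show (a + c) / 2 < ((bp h : X a b) : ℂ).re
      simp only [bp, Complex.ofReal_re]
      linarith [h.1]
    · show ((bp h : X a b) : ℂ).re < (c + b) / 2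
      simp only [bp, Complex.ofReal_re]
      linarith [h.2]
  · intro i β hβ
    cases i
    · apply hyH
      apply hy
      intro t
      have : (a + c) / 2 < ((β t : X a b) : ℂ).re := hβ t
      have h3 := mul_lt_mul_of_pos_right this (sub_pos.2 hab)
      nlinarith
    · apply hxH
      apply hx
      intro t
      have : ((β t : X a b) : ℂ).re < (c + b) / 2 := hβ t
      have h3 := mul_lt_mul_of_pos_right this (sub_pos.2 hab)
      nlinarith

end Pool.Agent.Helper70.BigD6
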